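import Mathlib
import Pool.Agent.X68.GroupIdealCH

/-! Normal group ideals: a dichotomy, and under CH a normal one without linearly ordered base. -/

namespace Pool.Agent.Results.MP_405a2c_gt.NormalNonlinear

open Set Pointwise

universe u

/-- image of a set under an entourage -/
def image {X : Type u} (E : Set (X × X)) (S : Set X) : Set X := {y | ∃ x ∈ S, (x, y) ∈ E}

/-- bounded sets of the family of entourages -/
def IsBdd {X : Type u} (F : Set (Set (X × X))) (B : Set X) : Prop :=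
  ∃ E ∈ F, ∃ x : X, B ⊆ image E {x}

/-- asymptotically disjoint sets -/
def AsympDisjoint {X : Type u} (F : Set (Set (X × X))) (P Q : Set X) : Prop :=
  ∀ E ∈ F, IsBdd F (image E P ∩ image E Q)

/-- asymptotic neighbourhoods -/
def IsAsympNbhd {X : Type u} (F : Set (Set (X × X))) (U P : Set X) : Prop :=
  ∀ E ∈ F, IsBdd F (image E P \ U)

/-- normality -/
def IsNormal {X : Type u} (F : Set (Set (X × X))) : Prop :=
  ∀ P Q : Set X, AsympDisjoint F P Q →
    ∃ U V : Set X, IsAsympNbhd F U P ∧ IsAsympNbhd F V Q ∧ Disjoint U V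

/-- group ideals -/
structure IsGroupIdeal {G : Type u} [Group G] (I : Set (Set G)) : Prop where
  subset_mem : ∀ A ∈ I, ∀ B, B ⊆ A → B ∈ I
  union_mem : ∀ A ∈ I, ∀ B ∈ I, A ∪ B ∈ I
  univ_notMem : (univ : Set G) ∉ I
  finite_mem : ∀ A : Set G, A.Finite → A ∈ I
  mul_inv_mem : ∀ A ∈ I, ∀ B ∈ I, A * B⁻¹ ∈ I

/-- the entourage of a member of the ideal -/
def entourage {G : Type u} [Group G] (A : Set G) : Set (G × G) :=
  {p | p.2 ∈ A * {p.1} ∪ {p.1}}

/-- the ballean of a group ideal -/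
def entourages {G : Type u} [Group G] (I : Set (Set G)) : Set (Set (G × G)) :=
  {E | ∃ A ∈ I, E = entourage A}

/-- the ideal has a base linearly ordered by inclusion -/
def HasLinearBase {X : Type u} (I : Set (Set X)) : Prop :=
  ∃ B : Set (Set X), B ⊆ I ∧ (∀ A ∈ I, ∃ C ∈ B, A ⊆ C) ∧ IsChain (fun S T => S ⊆ T) B

/-- the union of all conjugates of a member of the ideal is a member -/
def ConjClosed {G : Type u} [Group G] (I : Set (Set G)) : Prop :=
  ∀ A ∈ I, {x | ∃ a ∈ A, ∃ g : G, x = g * a * g⁻¹} ∈ I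

section General

variable {G : Type u} [Group G] {I : Set (Set G)}

theorem image_entourage (A S : Set G) : image (entourage A) S = A * S ∪ S := by
  ext y
  simp only [image, entourage, Set.mem_ofPred_eq]
  constructor
  · rintro ⟨x, hx, h | h⟩
    · obtain ⟨a, ha, b, rfl, rfl⟩ := h
      exact Or.inl ⟨a, ha, b, hx, rfl⟩
    · have : y = x := h
      rw [this]; exact Or.inr hx
  · rintro (⟨a, ha, x, hx, rfl⟩ | h)
    · exact ⟨x, hx, Or.inl ⟨a, ha, x, rfl, rfl⟩⟩
    · exact ⟨y, h, Or.inr rfl⟩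

theorem inv_mem (hI : IsGroupIdeal I) {A : Set G} (hA : A ∈ I) : A⁻¹ ∈ I := by
  have := hI.mul_inv_mem {1} (hI.finite_mem _ (finite_singleton _)) A hA
  simpa using this

theorem mul_mem (hI : IsGroupIdeal I) {A B : Set G} (hA : A ∈ I) (hB : B ∈ I) : A * B ∈ I := by
  have := hI.mul_inv_mem A hA B⁻¹ (inv_mem hI hB)
  simpa using this

theorem isBdd_iff (hI : IsGroupIdeal I) (B : Set G) : IsBdd (entourages I) B ↔ B ∈ I := by
  constructor
  · rintro ⟨E, ⟨A, hA, rfl⟩, x, hB⟩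
    rw [image_entourage] at hB
    exact hI.subset_mem _ (hI.union_mem _ (mul_mem hI hA (hI.finite_mem _ (finite_singleton x))) _
      (hI.finite_mem _ (finite_singleton x))) _ hB
  · intro hB
    refine ⟨entourage B, ⟨B, hB, rfl⟩, 1, ?_⟩
    rw [image_entourage]
    intro b hb
    exact Or.inl ⟨b, hb, 1, rfl, by simp⟩

/-- working form of asymptotic disjointness -/
def AD (I : Set (Set G)) (P Q : Set G) : Prop := ∀ A ∈ I, (A * P ∪ P) ∩ (A * Q ∪ Q) ∈ I

theorem asympDisjoint_iff (hI : IsGroupIdeal I) (P Q : Set G) :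
    AsympDisjoint (entourages I) P Q ↔ AD I P Q := by
  constructor
  · intro h A hA
    have := h (entourage A) ⟨A, hA, rfl⟩
    rwa [isBdd_iff hI, image_entourage, image_entourage] at this
  · rintro h E ⟨A, hA, rfl⟩
    rw [isBdd_iff hI, image_entourage, image_entourage]
    exact h A hA

theorem isAsympNbhd_iff (hI : IsGroupIdeal I) (U P : Set G) :
    IsAsympNbhd (entourages I) U P ↔ ∀ A ∈ I, (A * P ∪ P) \ U ∈ I := by
  constructor
  · intro h A hA
    have := h (entourage A) ⟨A, hA, rfl⟩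
    rwa [isBdd_iff hI, image_entourage] at this
  · rintro h E ⟨A, hA, rfl⟩
    rw [isBdd_iff hI, image_entourage]
    exact h A hA

theorem AD.symm {P Q : Set G} (h : AD I P Q) : AD I Q P := by
  intro A hA
  rw [inter_comm]
  exact h A hA

theorem AD.mono_right (hI : IsGroupIdeal I) {P Q Q' : Set G} (h : AD I P Q) (hQ : Q' ⊆ Q) :
    AD I P Q' := by
  intro A hA
  refine hI.subset_mem _ (h A hA) _ ?_
  exact inter_subset_inter_right _ (union_subset_union (mul_subset_mul_left hQ) hQ)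

theorem AD_compl (hI : IsGroupIdeal I) {P U : Set G} (h : ∀ A ∈ I, (A * P ∪ P) \ U ∈ I) :
    AD I P Uᶜ := by
  intro A hA
  have h1 : insert 1 A ∈ I := by
    have := hI.union_mem _ (hI.finite_mem {1} (finite_singleton _)) _ hA
    rwa [singleton_union] at this
  have h2 := h ((insert 1 A)⁻¹ * insert 1 A) (mul_mem hI (inv_mem hI h1) h1)
  refine hI.subset_mem _ (mul_mem hI h1 h2) _ ?_
  rintro z ⟨hz1, hz2⟩
  have h3 : ∃ a ∈ insert (1 : G) A, ∃ p ∈ P, z = a * p := by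
    rcases hz1 with ⟨a, ha, p, hp, rfl⟩ | hz
    · exact ⟨a, Or.inr ha, p, hp, rfl⟩
    · exact ⟨1, Or.inl rfl, z, hz, by simp⟩
  have h4 : ∃ a ∈ insert (1 : G) A, ∃ w ∈ Uᶜ, z = a * w := by
    rcases hz2 with ⟨a, ha, p, hp, rfl⟩ | hz
    · exact ⟨a, Or.inr ha, p, hp, rfl⟩
    · exact ⟨1, Or.inl rfl, z, hz, by simp⟩
  obtain ⟨a, ha, p, hp, e⟩ := h3
  obtain ⟨a', ha', w, hw, e'⟩ := h4
  refine ⟨a', ha', w, ⟨Or.inl ⟨a'⁻¹ * a, ⟨a'⁻¹, by simpa using ha', a, ha, rfl⟩, p, hp, ?_⟩,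
    hw⟩, e'.symm⟩
  simp only
  rw [mul_assoc, ← e, e']
  simp

/-- normality in working form -/
def Nrm (I : Set (Set G)) : Prop := ∀ P Q : Set G, AD I P Q → ∃ U V : Set G,
  (∀ A ∈ I, (A * P ∪ P) \ U ∈ I) ∧ (∀ A ∈ I, (A * Q ∪ Q) \ V ∈ I) ∧ Disjoint U V

theorem isNormal_iff (hI : IsGroupIdeal I) : IsNormal (entourages I) ↔ Nrm I := by
  constructor
  · intro h P Q hPQ
    obtain ⟨U, V, hU, hV, hd⟩ := h P Q ((asympDisjoint_iff hI P Q).2 hPQ)
    exact ⟨U, V, (isAsympNbhd_iff hI _ _).1 hU, (isAsympNbhd_iff hI _ _).1 hV, hd⟩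
  · intro h P Q hPQ
    obtain ⟨U, V, hU, hV, hd⟩ := h P Q ((asympDisjoint_iff hI P Q).1 hPQ)
    exact ⟨U, V, (isAsympNbhd_iff hI _ _).2 hU, (isAsympNbhd_iff hI _ _).2 hV, hd⟩

theorem dichotomy (hI : IsGroupIdeal I) (hc : ConjClosed I) (hN : Nrm I) {P Q : Set G}
    (h : AD I P Q) : ∃ f g : Set G → Set G, (∀ E ∈ I, f E ∈ I) ∧ (∀ E ∈ I, g E ∈ I) ∧
      ∀ E ∈ I, ∀ E' ∈ I, E ⊆ Q → E' ⊆ P → E' ⊆ f E ∨ E ⊆ g E' := by
  obtain ⟨U, V, hU, hV, hd⟩ := hN P Q h
  let cc : Set G → Set G := fun A => {x | ∃ a ∈ A, ∃ g : G, x = g * a * g⁻¹}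
  refine ⟨fun E => E⁻¹ * ((E * P ∪ P) \ U), fun E => ((cc E * Q ∪ Q) \ V) * E⁻¹, ?_, ?_, ?_⟩
  · intro E hE
    exact mul_mem hI (inv_mem hI hE) (hU E hE)
  · intro E hE
    exact mul_mem hI (hV _ (hc E hE)) (inv_mem hI hE)
  · intro E hE E' hE' hEQ hE'P
    by_contra hcon
    push Not at hcon
    obtain ⟨h1, h2⟩ := hcon
    obtain ⟨x, hx, hx'⟩ := not_subset.1 h1
    obtain ⟨y, hy, hy'⟩ := not_subset.1 h2
    have hyU : y * x ∈ U := by
      by_contra hn
      apply hx'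
      exact ⟨y⁻¹, by simpa using hy, y * x, ⟨Or.inl ⟨y, hy, x, hE'P hx, rfl⟩, hn⟩, by simp⟩
    have hyV : y * x ∈ V := by
      by_contra hn
      apply hy'
      refine ⟨y * x, ⟨Or.inl ⟨y * x * y⁻¹, ⟨x, hx, y, rfl⟩, y, hEQ hy, by simp⟩, hn⟩, x⁻¹,
        by simpa using hx, by simp⟩
    exact disjoint_left.1 hd hyU hyV

/-- main dichotomy -/
theorem linear_or_ultra (hI : IsGroupIdeal I) (hc : ConjClosed I) (hN : Nrm I)
    {X Y : Set G} (hX : X ∉ I) (hY : Y ∉ I) (hXY : AD I X Y) : HasLinearBase I := by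
  classical
  -- minimal family with unbounded union
  obtain ⟨S, ⟨hSI, hSu⟩, hmin⟩ : ∃ S : Set (Set G), (S ⊆ I ∧ ⋃₀ S ∉ I) ∧
      ∀ T : Set (Set G), T ⊆ I → Cardinal.mk T < Cardinal.mk S → ⋃₀ T ∈ I := by
    let K : Set Cardinal.{u} := {c | ∃ S : Set (Set G), (S ⊆ I ∧ ⋃₀ S ∉ I) ∧ Cardinal.mk S = c}
    have hK : K.Nonempty := by
      refine ⟨_, range (fun x : G => ({x} : Set G)), ⟨?_, ?_⟩, rfl⟩
      · rintro _ ⟨x, rfl⟩
        exact hI.finite_mem _ (finite_singleton x)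
      · have : ⋃₀ range (fun x : G => ({x} : Set G)) = univ := by
          ext x; simp
        rw [this]; exact hI.univ_notMem
    obtain ⟨S, hS, hSc⟩ := csInf_mem hK
    refine ⟨S, hS, fun T hT hlt => ?_⟩
    by_contra hn
    have : sInf K ≤ Cardinal.mk T := csInf_le' ⟨T, ⟨hT, hn⟩, rfl⟩
    rw [← hSc] at this
    exact absurd hlt (not_lt.2 this)
  let R : Set G → Prop := fun Q => ∃ D : S → Set G, (∀ i, D i ∈ I ∧ D i ⊆ Q) ∧ (⋃ i, D i) ∉ I
  let Cof : Set G → Prop := fun P => ∃ C : S → Set G, (∀ i, C i ∈ I ∧ C i ⊆ P) ∧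
    ∀ E ∈ I, E ⊆ P → ∃ i, E ⊆ C i
  have hRC : ∀ P Q : Set G, AD I P Q → R Q → Cof P := by
    rintro P Q hPQ ⟨D, hD, hDu⟩
    obtain ⟨f, g, hf, hg, hfg⟩ := dichotomy hI hc hN hPQ
    refine ⟨fun i => f (D i) ∩ P, fun i => ⟨hI.subset_mem _ (hf _ (hD i).1) _ inter_subset_left,
      inter_subset_right⟩, fun E hE hEP => ?_⟩
    by_contra hcon
    push Not at hcon
    apply hDu
    refine hI.subset_mem _ (hg E hE) _ (iUnion_subset fun i => ?_)
    rcases hfg (D i) (hD i).1 E hE (hD i).2 hEP with h | h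
    · exact absurd (subset_inter h hEP) (hcon i)
    · exact h
  have hCR : ∀ P : Set G, P ∉ I → Cof P → R P := by
    rintro P hP ⟨C, hC, hCc⟩
    refine ⟨C, hC, fun h => hP (hI.subset_mem _ h _ fun x hx => ?_)⟩
    obtain ⟨i, hi⟩ := hCc {x} (hI.finite_mem _ (finite_singleton x)) (by simpa using hx)
    exact mem_iUnion.2 ⟨i, hi rfl⟩
  obtain ⟨U, V, hU, hV, hd⟩ := hN X Y hXY
  have hXU : AD I X Uᶜ := AD_compl hI hU
  have hYV : AD I Y Vᶜ := AD_compl hI hV
  have hYU : AD I Y U := hYV.mono_right hI (subset_compl_iff_disjoint_right.2 hd)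
  have hXV : AD I X V := hXU.mono_right hI (subset_compl_iff_disjoint_right.2 hd.symm)
  have hRXY : R X ∧ R Y := by
    have h0 : R U ∨ R Uᶜ := by
      by_contra hcon
      have hcon' := not_or.1 hcon
      apply hSu
      have h1 : (⋃ i : S, (i : Set G) ∩ U) ∈ I := by
        by_contra hn
        exact hcon'.1 ⟨fun i => (i : Set G) ∩ U, fun i =>
          ⟨hI.subset_mem _ (hSI i.2) _ inter_subset_left, inter_subset_right⟩, hn⟩
      have h2 : (⋃ i : S, (i : Set G) ∩ Uᶜ) ∈ I := by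
        by_contra hn
        exact hcon'.2 ⟨fun i => (i : Set G) ∩ Uᶜ, fun i =>
          ⟨hI.subset_mem _ (hSI i.2) _ inter_subset_left, inter_subset_right⟩, hn⟩
      refine hI.subset_mem _ (hI.union_mem _ h1 _ h2) _ ?_
      rintro x ⟨T, hT, hx⟩
      by_cases hxU : x ∈ U
      · exact Or.inl (mem_iUnion.2 ⟨⟨T, hT⟩, hx, hxU⟩)
      · exact Or.inr (mem_iUnion.2 ⟨⟨T, hT⟩, hx, hxU⟩)
    rcases h0 with h | h
    · have hY' := hCR Y hY (hRC Y U hYU h)
      exact ⟨hCR X hX (hRC X Y hXY hY'), hY'⟩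
    · have hX' := hCR X hX (hRC X Uᶜ hXU h)
      exact ⟨hX', hCR Y hY (hRC Y X hXY.symm hX')⟩
  have hCV : Cof V := hRC V X hXV.symm hRXY.1
  have hCVc : Cof Vᶜ := hRC Vᶜ Y hYV.symm hRXY.2
  obtain ⟨lo, wf, hord⟩ := Cardinal.exists_ord_eq_type_lt S
  have hsmall : ∀ (C : S → Set G), (∀ i, C i ∈ I) → ∀ i : S, (⋃ j ∈ {j | lo.lt j i}, C j) ∈ I := by
    intro C hC i
    have h1 : Cardinal.mk (C '' {j | lo.lt j i}) < Cardinal.mk S :=
      lt_of_le_of_lt Cardinal.mk_image_le (Cardinal.mk_Iio_lt i hord)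
    have h2 := hmin (C '' {j | lo.lt j i}) (by rintro _ ⟨j, _, rfl⟩; exact hC j) h1
    rwa [sUnion_image] at h2
  obtain ⟨C1, hC1, hC1c⟩ := hCV
  obtain ⟨C2, hC2, hC2c⟩ := hCVc
  let B : (S → Set G) → S → Set G := fun C i => (⋃ j ∈ {j | lo.lt j i}, C j) ∪ C i
  have hBI : ∀ C : S → Set G, (∀ i, C i ∈ I) → ∀ i, B C i ∈ I := fun C hC i =>
    hI.union_mem _ (hsmall C hC i) _ (hC i)
  have hBmono : ∀ C : S → Set G, ∀ i j, lo.le i j → B C i ⊆ B C j := by
    intro C i j hij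
    rcases @eq_or_lt_of_le _ lo.toPartialOrder _ _ hij with h | h
    · rw [h]
    · rintro x (hx | hx)
      · simp only [mem_iUnion] at hx
        obtain ⟨k, hk, hx⟩ := hx
        left
        simp only [mem_iUnion]
        exact ⟨k, @lt_trans _ lo.toPartialOrder.toPreorder _ _ _ hk h, hx⟩
      · left
        simp only [mem_iUnion]
        exact ⟨i, h, hx⟩
  refine ⟨range fun i => B C1 i ∪ B C2 i, ?_, ?_, ?_⟩
  · rintro _ ⟨i, rfl⟩
    exact hI.union_mem _ (hBI C1 (fun i => (hC1 i).1) i) _ (hBI C2 (fun i => (hC2 i).1) i)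
  · intro A hA
    obtain ⟨i, hi⟩ := hC1c (A ∩ V) (hI.subset_mem _ hA _ inter_subset_left) inter_subset_right
    obtain ⟨j, hj⟩ := hC2c (A ∩ Vᶜ) (hI.subset_mem _ hA _ inter_subset_left) inter_subset_right
    obtain ⟨k, hik, hjk⟩ : ∃ k, lo.le i k ∧ lo.le j k := by
      rcases lo.le_total i j with h | h
      · exact ⟨j, h, @le_refl _ lo.toPartialOrder.toPreorder j⟩
      · exact ⟨i, @le_refl _ lo.toPartialOrder.toPreorder i, h⟩
    refine ⟨_, ⟨k, rfl⟩, fun x hx => ?_⟩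
    by_cases hxV : x ∈ V
    · exact Or.inl (hBmono C1 i k hik (Or.inr (hi ⟨hx, hxV⟩)))
    · exact Or.inr (hBmono C2 j k hjk (Or.inr (hj ⟨hx, hxV⟩)))
  · rintro _ ⟨i, rfl⟩ _ ⟨j, rfl⟩ _
    rcases lo.le_total i j with h | h
    · exact Or.inl (union_subset_union (hBmono C1 i j h) (hBmono C2 i j h))
    · exact Or.inr (union_subset_union (hBmono C1 j i h) (hBmono C2 j i h))

end General

section Example

open Pool.Agent.X68.GroupIdealCH

variable {G : Type} [CommGroup G]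

theorem gen_isGroupIdeal {S : Set (Set G)} (hS : ¬ Gen S univ) :
    IsGroupIdeal {A | Gen S A} where
  subset_mem := (gen_closed S).sub
  union_mem := (gen_closed S).un
  univ_notMem := hS
  finite_mem := (gen_closed S).fin
  mul_inv_mem := (gen_closed S).mul

theorem nrm_of_large {I : Set (Set G)} (hI : IsGroupIdeal I)
    (hl : ∀ X : Set G, X ∉ I → ∃ B ∈ I, B * X = univ) : Nrm I := by
  intro P Q hPQ
  have h : P ∈ I ∨ Q ∈ I := by
    by_contra hcon
    have hcon' := not_or.1 hcon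
    obtain ⟨B, hB, hBP⟩ := hl P hcon'.1
    apply hcon'.2
    refine hI.subset_mem _ (hPQ B hB) _ fun x hx => ⟨?_, Or.inr hx⟩
    rw [hBP]; exact Or.inl (mem_univ _)
  rcases h with h | h
  · refine ⟨∅, univ, fun A hA => ?_, fun A _ => ?_, by simp⟩
    · rw [sdiff_empty]
      exact hI.union_mem _ (mul_mem hI hA h) _ h
    · rw [sdiff_univ]
      exact hI.finite_mem _ finite_empty
  · refine ⟨univ, ∅, fun A _ => ?_, fun A hA => ?_, by simp⟩
    · rw [sdiff_univ]
      exact hI.finite_mem _ finite_empty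
    · rw [sdiff_empty]
      exact hI.union_mem _ (mul_mem hI hA h) _ h

theorem no_linear_base [Countable G] (h2 : ∀ x : G, x * x = 1) {I : Set (Set G)}
    (hI : IsGroupIdeal I) (hl : ∀ X : Set G, X ∉ I → ∃ B ∈ I, B * X = univ) :
    ¬ HasLinearBase I := by
  rintro ⟨𝓑, h𝓑I, hcof, hchain⟩
  have hclosed : Closed I := ⟨hI.subset_mem, hI.union_mem, hI.finite_mem, hI.mul_inv_mem⟩
  obtain ⟨g, hg⟩ := exists_surjective_nat G
  have h1 : ∀ n : ℕ, ∃ C ∈ 𝓑, (g '' {k | k ≤ n}) ⊆ C := fun n =>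
    hcof _ (hI.finite_mem _ ((finite_le_nat n).image g))
  choose C hC hgC using h1
  have h3 : ∀ A ∈ I, ∃ n, A ⊆ C n := by
    intro A hA
    obtain ⟨D, hD, hAD⟩ := hcof A hA
    by_cases hn : ∃ n, D ⊆ C n
    · obtain ⟨n, hn⟩ := hn
      exact ⟨n, hAD.trans hn⟩
    · exfalso
      push Not at hn
      apply hI.univ_notMem
      refine hI.subset_mem _ (h𝓑I hD) _ fun x _ => ?_
      obtain ⟨k, rfl⟩ := hg x
      have h4 : C k ⊆ D := by
        by_cases he : D = C k
        · exact absurd he.subset (hn k)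
        · rcases hchain hD (hC k) he with h | h
          · exact absurd h (hn k)
          · exact h
      exact h4 (hgC k ⟨k, le_refl k, rfl⟩)
  have hgenI : ∀ A, Gen (range C) A → A ∈ I := by
    intro A hA
    exact hA I hclosed (by rintro _ ⟨n, rfl⟩; exact h𝓑I (hC n))
  have hp : ¬ Gen (range C) univ := fun h => hI.univ_notMem (hgenI _ h)
  obtain ⟨B, hB1, _, hB3⟩ := step h2 (countable_range C) hp univ hp
  have hBI : B ∉ I := by
    intro h
    obtain ⟨n, hn⟩ := h3 B h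
    exact hB3 ((gen_closed _).sub _ (gen_base (mem_range_self n)) _ hn)
  obtain ⟨A, hA, hAB⟩ := hl B hBI
  obtain ⟨n, hn⟩ := h3 A hA
  apply hB1
  have h5 := (gen_closed (insert B (range C))).mul (C n)
    (gen_base (Or.inr (mem_range_self n))) B (gen_base (Or.inl rfl))
  rw [inv_set h2] at h5
  refine (gen_closed _).sub _ h5 _ ?_
  rw [← hAB]
  exact mul_subset_mul_right hn

end Example

theorem result :
    (∀ (G : Type u) [Group G] (I : Set (Set G)), IsGroupIdeal I → ConjClosed I →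
      IsNormal (entourages I) → HasLinearBase I ∨
        ∀ P Q : Set G, AsympDisjoint (entourages I) P Q →
          IsBdd (entourages I) P ∨ IsBdd (entourages I) Q) ∧
    ((Cardinal.continuum : Cardinal.{0}) = Cardinal.aleph 1 →
      ∃ (G : Type) (_ : CommGroup G) (I : Set (Set G)), Countable G ∧ (∀ x : G, x * x = 1) ∧
        IsGroupIdeal I ∧ IsNormal (entourages I) ∧ ¬ HasLinearBase I) := by
  constructor
  · intro G _ I hI hc hN
    by_cases h : ∀ P Q : Set G, AsympDisjoint (entourages I) P Q →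
          IsBdd (entourages I) P ∨ IsBdd (entourages I) Q
    · exact Or.inr h
    · left
      push Not at h
      obtain ⟨P, Q, hPQ, hP, hQ⟩ := h
      rw [isBdd_iff hI] at hP hQ
      exact linear_or_ultra hI hc ((isNormal_iff hI).1 hN) hP hQ ((asympDisjoint_iff hI P Q).1 hPQ)
  · intro hCH
    let G := Multiplicative (ℕ →₀ ZMod 2)
    have h2 : ∀ x : G, x * x = 1 := by
      intro x
      apply Multiplicative.toAdd.injective
      show Multiplicative.toAdd x + Multiplicative.toAdd x = 0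
      ext n
      rw [Finsupp.add_apply, Finsupp.zero_apply]
      exact CharTwo.add_self_eq_zero _
    have : Infinite G := by
      have : Infinite (ℕ →₀ ZMod 2) := inferInstance
      exact this
    have : Countable G := by
      have : Countable (ℕ →₀ ZMod 2) := inferInstance
      exact this
    obtain ⟨S, hS, hl⟩ := Pool.Agent.X68.GroupIdealCH.exists_family h2 hCH
    have hI := gen_isGroupIdeal hS
    refine ⟨G, inferInstance, {A | Pool.Agent.X68.GroupIdealCH.Gen S A}, inferInstance, h2, hI, ?_, ?_⟩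
    · exact (isNormal_iff hI).2 (nrm_of_large hI hl)
    · exact no_linear_base h2 hI hl

end Pool.Agent.Results.MP_405a2c_gt.NormalNonlinear
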